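import Pool.Agent.helper74.VQ.SpecC

set_option autoImplicit false

open scoped MatrixGroups ContDiff Topology UpperHalfPlane ComplexConjugate ENNReal
open UpperHalfPlane MeasureTheory Filter Set

namespace Pool.Agent.VQ

open Pool.Agent.RS

theorem VD0_lin (L : ℂ →L[ℝ] ℂ) (hL : ‖L‖ ≤ 1) (v : ℂ) (hv : ‖v‖ ≤ 1) (i : ℕ) :
    ‖iteratedFDeriv ℝ i (fun w => L w) v‖ ≤ 1 := by
  rcases i with _ | _ | i
  · rw [norm_iteratedFDeriv_zero]
    calc ‖L v‖ ≤ ‖L‖ * ‖v‖ := L.le_opNorm v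
      _ ≤ 1 * 1 := mul_le_mul hL hv (norm_nonneg _) zero_le_one
      _ = 1 := one_mul 1
  · rw [zero_add, norm_iteratedFDeriv_one]
    have e : fderiv ℝ (fun w => L w) v = L := L.fderiv
    rw [e]
    exact hL
  · have e : fderiv ℝ (fun w => L w) = fun _ => L := by
      funext w
      exact L.fderiv
    rw [← norm_iteratedFDeriv_fderiv, e, iteratedFDeriv_succ_const]
    simp

theorem VD0_linmul (L1 L2 : ℂ →L[ℝ] ℂ) (h1 : ‖L1‖ ≤ 1) (h2 : ‖L2‖ ≤ 1) (v : ℂ) (hv : ‖v‖ ≤ 1)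
    (k : ℕ) : ‖iteratedFDeriv ℝ k (fun w => L1 w * L2 w) v‖ ≤ 2 ^ k := by
  refine (norm_iteratedFDeriv_mul_le (N := ∞) L1.contDiff L2.contDiff v
    (by exact_mod_cast le_top)).trans ?_
  have e : ∀ i ∈ Finset.range (k + 1), (k.choose i : ℝ) * ‖iteratedFDeriv ℝ i (fun w => L1 w) v‖ *
      ‖iteratedFDeriv ℝ (k - i) (fun w => L2 w) v‖ ≤ (k.choose i : ℝ) := by
    intro i _
    rw [mul_assoc]
    have a1 := VD0_lin L1 h1 v hv i
    have a2 := VD0_lin L2 h2 v hv (k - i)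
    calc (k.choose i : ℝ) * (‖iteratedFDeriv ℝ i (fun w => L1 w) v‖ *
        ‖iteratedFDeriv ℝ (k - i) (fun w => L2 w) v‖) ≤ (k.choose i : ℝ) * (1 * 1) :=
          mul_le_mul_of_nonneg_left (mul_le_mul a1 a2 (norm_nonneg _) zero_le_one) (by positivity)
      _ = (k.choose i : ℝ) := by ring
  refine (Finset.sum_le_sum e).trans (le_of_eq ?_)
  exact_mod_cast Nat.sum_range_choose k

theorem VD0_constmul (c : ℂ) (f : ℂ → ℂ) (hf : ContDiff ℝ ∞ f) (k : ℕ) (v : ℂ) :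
    ‖iteratedFDeriv ℝ k (fun w => c * f w) v‖ = ‖c‖ * ‖iteratedFDeriv ℝ k f v‖ := by
  have e : (fun w => c * f w) = fun w => c • f w := rfl
  rw [e, iteratedFDeriv_const_smul_apply' (a := c) (f := f)
    ((hf.of_le (by exact_mod_cast le_top)).contDiffAt), norm_smul]

/-- the real and imaginary parts as complex valued maps -/
noncomputable def VD0_Lr : ℂ →L[ℝ] ℂ := Complex.ofRealCLM.comp Complex.reCLM

noncomputable def VD0_Li : ℂ →L[ℝ] ℂ := Complex.ofRealCLM.comp Complex.imCLM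

theorem VD0_Lrn : ‖VD0_Lr‖ ≤ 1 := by
  refine ContinuousLinearMap.opNorm_le_bound _ zero_le_one fun x => ?_
  rw [one_mul]
  simpa [VD0_Lr] using Complex.abs_re_le_norm x

theorem VD0_Lin : ‖VD0_Li‖ ≤ 1 := by
  refine ContinuousLinearMap.opNorm_le_bound _ zero_le_one fun x => ?_
  rw [one_mul]
  simpa [VD0_Li] using Complex.abs_im_le_norm x

theorem VD0_qfe (Mx : Matrix (Fin 2) (Fin 2) ℂ) : qf Mx = fun v =>
    (Mx 0 0 * (VD0_Lr v * VD0_Lr v) + (Mx 0 1 + Mx 1 0) * (VD0_Lr v * VD0_Li v)) +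
      Mx 1 1 * (VD0_Li v * VD0_Li v) := by
  funext v
  simp only [qf, VD0_Lr, VD0_Li, ContinuousLinearMap.comp_apply, Complex.ofRealCLM_apply,
    Complex.reCLM_apply, Complex.imCLM_apply]
  push_cast
  ring

theorem VD0_qfs (Mx : Matrix (Fin 2) (Fin 2) ℂ) : ContDiff ℝ ∞ (qf Mx) := by
  rw [VD0_qfe]
  have h1 := VD0_Lr.contDiff (n := ∞)
  have h2 := VD0_Li.contDiff (n := ∞)
  exact ((contDiff_const.mul (h1.mul h1)).add (contDiff_const.mul (h1.mul h2))).add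
    (contDiff_const.mul (h2.mul h2))

theorem VD0_qfb (Mx : Matrix (Fin 2) (Fin 2) ℂ) (N : ℝ) (hM : ∀ i j, ‖Mx i j‖ ≤ N) (k : ℕ)
    (v : ℂ) (hv : ‖v‖ ≤ 1) : ‖iteratedFDeriv ℝ k (qf Mx) v‖ ≤ 4 * N * 2 ^ k := by
  have h1 := VD0_Lr.contDiff (n := ∞)
  have h2 := VD0_Li.contDiff (n := ∞)
  have s1 : ContDiff ℝ ∞ (fun v => VD0_Lr v * VD0_Lr v) := h1.mul h1
  have s2 : ContDiff ℝ ∞ (fun v => VD0_Lr v * VD0_Li v) := h1.mul h2
  have s3 : ContDiff ℝ ∞ (fun v => VD0_Li v * VD0_Li v) := h2.mul h2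
  have t1 : ContDiff ℝ ∞ (fun v => Mx 0 0 * (VD0_Lr v * VD0_Lr v)) := contDiff_const.mul s1
  have t2 : ContDiff ℝ ∞ (fun v => (Mx 0 1 + Mx 1 0) * (VD0_Lr v * VD0_Li v)) :=
    contDiff_const.mul s2
  have t3 : ContDiff ℝ ∞ (fun v => Mx 1 1 * (VD0_Li v * VD0_Li v)) := contDiff_const.mul s3
  have le : ((k : ℕ) : ℕ∞ω) ≤ (∞ : ℕ∞ω) := by exact_mod_cast le_top
  rw [VD0_qfe]
  rw [fun_iteratedFDeriv_add_apply (((t1.add t2).of_le le).contDiffAt) ((t3.of_le le).contDiffAt),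
    fun_iteratedFDeriv_add_apply ((t1.of_le le).contDiffAt) ((t2.of_le le).contDiffAt)]
  have a1 : ‖iteratedFDeriv ℝ k (fun v => Mx 0 0 * (VD0_Lr v * VD0_Lr v)) v‖ ≤ N * 2 ^ k := by
    rw [VD0_constmul _ _ s1]
    exact mul_le_mul (hM 0 0) (VD0_linmul _ _ VD0_Lrn VD0_Lrn v hv k) (norm_nonneg _)
      ((norm_nonneg _).trans (hM 0 0))
  have a2 : ‖iteratedFDeriv ℝ k (fun v => (Mx 0 1 + Mx 1 0) * (VD0_Lr v * VD0_Li v)) v‖ ≤
      2 * N * 2 ^ k := by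
    rw [VD0_constmul _ _ s2]
    have e : ‖Mx 0 1 + Mx 1 0‖ ≤ 2 * N := by
      refine (norm_add_le _ _).trans ?_
      linarith [hM 0 1, hM 1 0]
    exact mul_le_mul e (VD0_linmul _ _ VD0_Lrn VD0_Lin v hv k) (norm_nonneg _)
      ((norm_nonneg _).trans e)
  have a3 : ‖iteratedFDeriv ℝ k (fun v => Mx 1 1 * (VD0_Li v * VD0_Li v)) v‖ ≤ N * 2 ^ k := by
    rw [VD0_constmul _ _ s3]
    exact mul_le_mul (hM 1 1) (VD0_linmul _ _ VD0_Lin VD0_Lin v hv k) (norm_nonneg _)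
      ((norm_nonneg _).trans (hM 1 1))
  refine (norm_add_le _ _).trans ((add_le_add ((norm_add_le _ _).trans (add_le_add a1 a2))
    a3).trans ?_)
  apply le_of_eq
  ring

theorem VD0_exp (i : ℕ) (z : ℂ) : ‖iteratedFDeriv ℝ i Complex.exp z‖ ≤ ‖Complex.exp z‖ := by
  have h : ContDiffAt ℂ i Complex.exp z := Complex.contDiff_exp.contDiffAt
  rw [← h.restrictScalars_iteratedFDeriv (𝕜 := ℝ)]
  have e : ‖(ContinuousMultilinearMap.restrictScalars ℝ (iteratedFDeriv ℂ i Complex.exp z))‖ =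
      ‖iteratedFDeriv ℂ i Complex.exp z‖ := rfl
  rw [Function.comp_apply, e, norm_iteratedFDeriv_eq_norm_iteratedDeriv, iteratedDeriv_eq_iterate,
    Complex.iter_deriv_exp]

/-- Derivatives of the Gaussian, at one point. -/
theorem VD0_gauss (Mx : Matrix (Fin 2) (Fin 2) ℂ) (N R : ℝ) (hN : 1 ≤ N) (hR : 1 ≤ R)
    (hM : ∀ i j, ‖Mx i j‖ ≤ N) (c : ℂ) (k : ℕ) (v : ℂ) (hv : ‖v‖ ≤ 1) :
    ‖iteratedFDeriv ℝ k (fun v => c * Complex.exp (Complex.I * (R : ℂ) * (qf Mx v / 2))) v‖ ≤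
      ‖c‖ * (k.factorial * ‖Complex.exp (Complex.I * (R : ℂ) * (qf Mx v / 2))‖ *
        (4 * R * N) ^ k) := by
  have s0 := VD0_qfs Mx
  have s1 : ContDiff ℝ ∞ (fun v => (Complex.I * (R : ℂ) / 2) * qf Mx v) := contDiff_const.mul s0
  have se : ContDiff ℝ ∞ Complex.exp := Complex.contDiff_exp
  have e0 : (fun v => Complex.exp (Complex.I * (R : ℂ) * (qf Mx v / 2))) =
      Complex.exp ∘ (fun v => (Complex.I * (R : ℂ) / 2) * qf Mx v) := by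
    funext v
    simp only [Function.comp_apply]
    congr 1
    ring
  have s2 : ContDiff ℝ ∞ (fun v => Complex.exp (Complex.I * (R : ℂ) * (qf Mx v / 2))) := by
    rw [e0]
    exact se.comp s1
  rw [VD0_constmul _ _ s2]
  refine mul_le_mul_of_nonneg_left ?_ (norm_nonneg _)
  have e1 : Complex.I * (R : ℂ) * (qf Mx v / 2) = (Complex.I * (R : ℂ) / 2) * qf Mx v := by ring
  rw [e0, e1]
  refine norm_iteratedFDeriv_comp_le (N := ∞) se s1 (by exact_mod_cast le_top) v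
    (fun i _ => VD0_exp i _) ?_
  intro i hi _
  rw [VD0_constmul _ _ s0]
  have e2 : ‖Complex.I * (R : ℂ) / 2‖ = R / 2 := by
    rw [norm_div, norm_mul, Complex.norm_I, Complex.norm_real, Real.norm_eq_abs,
      abs_of_nonneg (by linarith)]
    simp
  rw [e2]
  have hNR : 1 ≤ 2 * R * N := by nlinarith
  calc R / 2 * ‖iteratedFDeriv ℝ i (qf Mx) v‖ ≤ R / 2 * (4 * N * 2 ^ i) :=
        mul_le_mul_of_nonneg_left (VD0_qfb Mx N hM i v hv) (by linarith)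
    _ = 2 ^ i * (2 * R * N) := by ring
    _ ≤ 2 ^ i * (2 * R * N) ^ i := by
        refine mul_le_mul_of_nonneg_left ?_ (by positivity)
        exact le_self_pow₀ hNR (by omega)
    _ = (4 * R * N) ^ i := by rw [← mul_pow]; congr 1; ring

theorem VD0_small (C s b ζ : ℝ) (hb : 0 < b) (hζ : 0 < ζ) : ∃ R0 : ℝ, 1 ≤ R0 ∧
    ∀ R : ℝ, R0 ≤ R → C * (R ^ s * Real.exp (-(b * R ^ ζ))) ≤ 1 := by
  have h1 := (tendsto_rpow_mul_exp_neg_mul_atTop_nhds_zero (s / ζ) b hb).comp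
    (tendsto_rpow_atTop hζ)
  have h2 : Tendsto (fun R : ℝ => C * (((fun x : ℝ => x ^ (s / ζ) * Real.exp (-b * x)) ∘
      fun x : ℝ => x ^ ζ) R)) atTop (𝓝 (C * 0)) := h1.const_mul C
  rw [mul_zero] at h2
  have h3 := (h2.eventually (gt_mem_nhds (zero_lt_one))).and (eventually_ge_atTop (1 : ℝ))
  obtain ⟨R0, h4⟩ := eventually_atTop.1 h3
  refine ⟨max R0 1, le_max_right _ _, fun R hR => ?_⟩
  have h5 := (h4 R ((le_max_left _ _).trans hR)).1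
  have hR1 : 1 ≤ R := (le_max_right _ _).trans hR
  have hR0 : 0 < R := by linarith
  simp only [Function.comp_apply] at h5
  rw [← Real.rpow_mul hR0.le, mul_div_cancel₀ _ hζ.ne', neg_mul] at h5
  exact h5.le

/-- The difference of two cut-offs times a Gaussian is small. -/
theorem VD0_core (hV : VCT_stmt) (ch : ℝ → ℝ) (K : ℕ) (a b M C0 : ℝ) (hch : CH ch) (ha : 0 < a)
    (hab : a ≤ b) (hb : b ≤ 1 / 8) (hC0 : 1 ≤ C0) : ∃ R0 : ℝ, 1 ≤ R0 ∧ ∀ (R N : ℝ) (c : ℂ)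
    (Mx : Matrix (Fin 2) (Fin 2) ℂ), R0 ≤ R → 1 ≤ N → N ≤ C0 * R ^ a →
    ‖c‖ ≤ R ^ (3 / 2 : ℝ) * N → (∀ i j, ‖Mx i j‖ ≤ N) →
    (∀ v : ℂ, ‖v‖ ^ 2 ≤ N * (qf Mx v).im) →
    ContDiff ℝ ∞ (fun v : ℂ => ((ch (R ^ (1 - 2 * b) * ‖v‖ ^ 2) -
      ch (R ^ (1 - 2 * a) * ‖v‖ ^ 2) : ℝ) : ℂ) *
        (c * Complex.exp (Complex.I * (R : ℂ) * (qf Mx v / 2)))) ∧
    (∀ v : ℂ, ((ch (R ^ (1 - 2 * b) * ‖v‖ ^ 2) - ch (R ^ (1 - 2 * a) * ‖v‖ ^ 2) : ℝ) : ℂ) *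
        (c * Complex.exp (Complex.I * (R : ℂ) * (qf Mx v / 2))) ≠ 0 →
      ‖v‖ ≤ R ^ (-(1 / 2) + b)) ∧
    ∀ k ≤ K, ∀ v : ℂ, ‖iteratedFDeriv ℝ k (fun v : ℂ => ((ch (R ^ (1 - 2 * b) * ‖v‖ ^ 2) -
      ch (R ^ (1 - 2 * a) * ‖v‖ ^ 2) : ℝ) : ℂ) *
        (c * Complex.exp (Complex.I * (R : ℂ) * (qf Mx v / 2)))) v‖ ≤ R ^ (-M) := by
  obtain ⟨C1, hC1, hct⟩ := hV ch K hch
  obtain ⟨R0, hR0, hsm⟩ := VD0_small (2 ^ K * (2 * C1) * (C0 * K.factorial * (4 * C0) ^ K))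
    (3 * K + 3 + M) (1 / (8 * C0)) a (by positivity) ha
  refine ⟨R0, hR0, ?_⟩
  intro R N c Mx hR hN1 hN2 hc hM him
  have hR1 : 1 ≤ R := hR0.trans hR
  have hRp : 0 < R := by linarith
  obtain ⟨x1, x2, x3, x4, -⟩ := hct b R (by linarith) (by linarith) hR1
  obtain ⟨y1, y2, y3, y4, -⟩ := hct a R (by linarith) (by linarith) hR1
  have hRa : R ^ a ≤ R := by
    calc R ^ a ≤ R ^ (1 : ℝ) := Real.rpow_le_rpow_of_exponent_le hR1 (by linarith)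
      _ = R := Real.rpow_one R
  have hNR : N ≤ C0 * R := hN2.trans (mul_le_mul_of_nonneg_left hRa (by linarith))
  -- the two factors
  have sX : ContDiff ℝ ∞ (fun v : ℂ => ((ch (R ^ (1 - 2 * b) * ‖v‖ ^ 2) -
      ch (R ^ (1 - 2 * a) * ‖v‖ ^ 2) : ℝ) : ℂ)) := by
    have e : (fun v : ℂ => ((ch (R ^ (1 - 2 * b) * ‖v‖ ^ 2) -
        ch (R ^ (1 - 2 * a) * ‖v‖ ^ 2) : ℝ) : ℂ)) = fun v : ℂ =>
        ((ch (R ^ (1 - 2 * b) * ‖v‖ ^ 2) : ℝ) : ℂ) - ((ch (R ^ (1 - 2 * a) * ‖v‖ ^ 2) : ℝ) : ℂ) := by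
      funext v
      push_cast
      ring
    rw [e]
    exact x1.sub y1
  have sG : ContDiff ℝ ∞ (fun v : ℂ => c * Complex.exp (Complex.I * (R : ℂ) * (qf Mx v / 2))) :=
    contDiff_const.mul ((contDiff_const.mul ((VD0_qfs Mx).div_const 2)).cexp)
  have dX : ∀ k ≤ K, ∀ v : ℂ, ‖iteratedFDeriv ℝ k (fun v : ℂ =>
      ((ch (R ^ (1 - 2 * b) * ‖v‖ ^ 2) - ch (R ^ (1 - 2 * a) * ‖v‖ ^ 2) : ℝ) : ℂ)) v‖ ≤
      2 * C1 * R ^ K := by
    intro k hk v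
    have e : (fun v : ℂ => ((ch (R ^ (1 - 2 * b) * ‖v‖ ^ 2) -
        ch (R ^ (1 - 2 * a) * ‖v‖ ^ 2) : ℝ) : ℂ)) = fun v : ℂ =>
        ((ch (R ^ (1 - 2 * b) * ‖v‖ ^ 2) : ℝ) : ℂ) - ((ch (R ^ (1 - 2 * a) * ‖v‖ ^ 2) : ℝ) : ℂ) := by
      funext v
      push_cast
      ring
    have le : ((k : ℕ) : ℕ∞ω) ≤ (∞ : ℕ∞ω) := by exact_mod_cast le_top
    rw [e, fun_iteratedFDeriv_sub_apply ((x1.of_le le).contDiffAt) ((y1.of_le le).contDiffAt)]
    refine (norm_sub_le _ _).trans ((add_le_add (x3 k hk v) (y3 k hk v)).trans ?_)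
    have e1 : (R ^ (1 / 2 : ℝ)) ^ k ≤ R ^ K := by
      have e2 : R ^ (1 / 2 : ℝ) ≤ R := by
        calc R ^ (1 / 2 : ℝ) ≤ R ^ (1 : ℝ) :=
              Real.rpow_le_rpow_of_exponent_le hR1 (by norm_num)
          _ = R := Real.rpow_one R
      calc (R ^ (1 / 2 : ℝ)) ^ k ≤ R ^ k :=
            pow_le_pow_left₀ (Real.rpow_nonneg hRp.le _) e2 k
        _ ≤ R ^ K := pow_le_pow_right₀ hR1 hk
    have e3 : C1 * (R ^ (1 / 2 : ℝ)) ^ k ≤ C1 * R ^ K :=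
      mul_le_mul_of_nonneg_left e1 (by linarith)
    linarith
  -- the support
  have sup : ∀ v : ℂ, ((ch (R ^ (1 - 2 * b) * ‖v‖ ^ 2) -
      ch (R ^ (1 - 2 * a) * ‖v‖ ^ 2) : ℝ) : ℂ) *
        (c * Complex.exp (Complex.I * (R : ℂ) * (qf Mx v / 2))) ≠ 0 →
      R ^ (-(1 / 2) + a) / 2 ≤ ‖v‖ ∧ ‖v‖ ≤ R ^ (-(1 / 2) + b) := by
    intro v hv
    have h1 : ch (R ^ (1 - 2 * b) * ‖v‖ ^ 2) - ch (R ^ (1 - 2 * a) * ‖v‖ ^ 2) ≠ 0 := by
      intro h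
      apply hv
      rw [h]
      simp
    have hmono : R ^ (-(1 / 2) + a) ≤ R ^ (-(1 / 2) + b) :=
      Real.rpow_le_rpow_of_exponent_le hR1 (by linarith)
    constructor
    · by_contra hcon
      rw [not_le] at hcon
      apply h1
      rw [x4 v (by linarith), y4 v hcon.le, sub_self]
    · by_cases h2 : ch (R ^ (1 - 2 * b) * ‖v‖ ^ 2) = 0
      · have h3 : ch (R ^ (1 - 2 * a) * ‖v‖ ^ 2) ≠ 0 := by
          intro h
          apply h1
          rw [h2, h, sub_self]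
        exact (y2 v h3).trans hmono
      · exact x2 v h2
  refine ⟨sX.mul sG, fun v hv => (sup v hv).2, ?_⟩
  intro k hk v
  by_cases hS : R ^ (-(1 / 2) + a) / 2 ≤ ‖v‖ ∧ ‖v‖ ≤ R ^ (-(1 / 2) + b)
  · have hv1 : ‖v‖ ≤ 1 := by
      refine hS.2.trans ?_
      calc R ^ (-(1 / 2) + b) ≤ R ^ (0 : ℝ) := Real.rpow_le_rpow_of_exponent_le hR1 (by linarith)
        _ = 1 := Real.rpow_zero R
    set Ex : ℝ := ‖Complex.exp (Complex.I * (R : ℂ) * (qf Mx v / 2))‖ with hEx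
    have hE0 : 0 ≤ Ex := norm_nonneg _
    have hE : Ex ≤ Real.exp (-(1 / (8 * C0) * R ^ a)) := by
      rw [hEx, Complex.norm_exp]
      apply Real.exp_le_exp.2
      have e1 : (Complex.I * (R : ℂ) * (qf Mx v / 2)).re = -(R / 2 * (qf Mx v).im) := by
        simp only [Complex.mul_re, Complex.mul_im, Complex.I_re, Complex.I_im, Complex.ofReal_re,
          Complex.ofReal_im, Complex.div_ofNat_re, Complex.div_ofNat_im]
        ring
      rw [e1]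
      apply neg_le_neg
      have e2 : (R ^ (-(1 / 2) + a) / 2) ^ 2 ≤ ‖v‖ ^ 2 :=
        pow_le_pow_left₀ (by positivity) hS.1 2
      have e3 : (R ^ (-(1 / 2) + a) / 2) ^ 2 = R ^ (-1 + 2 * a) / 4 := by
        rw [div_pow, ← Real.rpow_natCast, ← Real.rpow_mul hRp.le]
        norm_num
        congr 1
        ring
      have e4 : R ^ (-1 + 2 * a) / 4 ≤ N * (qf Mx v).im := by
        rw [← e3]
        exact e2.trans (him v)
      have e5 : R * R ^ (-1 + 2 * a) = R ^ a * R ^ a := by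
        rw [← Real.rpow_add hRp]
        nth_rewrite 1 [← Real.rpow_one R]
        rw [← Real.rpow_add hRp]
        congr 1
        ring
      have hq : 0 ≤ (qf Mx v).im := by
        have h1 : 0 ≤ N * (qf Mx v).im := (by positivity : (0 : ℝ) ≤ ‖v‖ ^ 2).trans (him v)
        exact nonneg_of_mul_nonneg_right h1 (by linarith)
      have hRa0 : 0 < R ^ a := Real.rpow_pos_of_pos hRp a
      have e6 : R ^ a * R ^ a / 8 ≤ C0 * R ^ a * (R / 2 * (qf Mx v).im) := by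
        calc R ^ a * R ^ a / 8 = R / 2 * (R ^ (-1 + 2 * a) / 4) := by
              rw [← e5]; ring
          _ ≤ R / 2 * (N * (qf Mx v).im) := mul_le_mul_of_nonneg_left e4 (by linarith)
          _ ≤ R / 2 * (C0 * R ^ a * (qf Mx v).im) :=
              mul_le_mul_of_nonneg_left (mul_le_mul_of_nonneg_right hN2 hq) (by linarith)
          _ = _ := by ring
      have e7 : C0 * R ^ a * (1 / (8 * C0) * R ^ a) ≤ C0 * R ^ a * (R / 2 * (qf Mx v).im) := by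
        refine le_trans (le_of_eq ?_) e6
        field_simp
      exact le_of_mul_le_mul_left e7 (by positivity)
    refine (norm_iteratedFDeriv_mul_le (N := (∞ : ℕ∞ω)) sX sG v
      (by exact_mod_cast le_top)).trans ?_
    have t : ∀ i ∈ Finset.range (k + 1), (k.choose i : ℝ) * ‖iteratedFDeriv ℝ i (fun v : ℂ =>
        ((ch (R ^ (1 - 2 * b) * ‖v‖ ^ 2) - ch (R ^ (1 - 2 * a) * ‖v‖ ^ 2) : ℝ) : ℂ)) v‖ *
        ‖iteratedFDeriv ℝ (k - i) (fun v : ℂ =>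
          c * Complex.exp (Complex.I * (R : ℂ) * (qf Mx v / 2))) v‖ ≤
        (k.choose i : ℝ) * ((2 * C1 * R ^ K) *
          (R ^ (3 / 2 : ℝ) * N * (K.factorial * Ex * (4 * R * N) ^ K))) := by
      intro i hi
      have hi' : i ≤ k := Nat.lt_succ_iff.1 (Finset.mem_range.1 hi)
      rw [mul_assoc]
      refine mul_le_mul_of_nonneg_left ?_ (by positivity)
      refine mul_le_mul (dX i (hi'.trans hk) v) ?_ (norm_nonneg _) (by positivity)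
      refine (VD0_gauss Mx N R hN1 hR1 hM c (k - i) v hv1).trans ?_
      refine mul_le_mul hc ?_ (by positivity) (by positivity)
      have hki : k - i ≤ K := (Nat.sub_le _ _).trans hk
      have g1 : ((k - i).factorial : ℝ) ≤ K.factorial := by
        exact_mod_cast Nat.factorial_le hki
      have hbig : 1 ≤ 4 * R * N := by nlinarith
      have g2 : (4 * R * N) ^ (k - i) ≤ (4 * R * N) ^ K := pow_le_pow_right₀ hbig hki
      exact mul_le_mul (mul_le_mul_of_nonneg_right g1 hE0) g2 (by positivity) (by positivity)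
    refine (Finset.sum_le_sum t).trans ?_
    rw [← Finset.sum_mul]
    have e2 : ∑ i ∈ Finset.range (k + 1), (k.choose i : ℝ) = 2 ^ k := by
      exact_mod_cast Nat.sum_range_choose k
    rw [e2]
    have f1 : (2 : ℝ) ^ k ≤ 2 ^ K := pow_le_pow_right₀ (by norm_num) hk
    have f2 : R ^ (3 / 2 : ℝ) ≤ R ^ 2 := by
      calc R ^ (3 / 2 : ℝ) ≤ R ^ (2 : ℝ) := Real.rpow_le_rpow_of_exponent_le hR1 (by norm_num)
        _ = R ^ 2 := by norm_cast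
    have f3 : R ^ (3 / 2 : ℝ) * N ≤ R ^ 2 * (C0 * R) :=
      mul_le_mul f2 hNR (by linarith) (by positivity)
    have f4 : (4 * R * N) ^ K ≤ (4 * C0) ^ K * R ^ (2 * K) := by
      calc (4 * R * N) ^ K ≤ (4 * R * (C0 * R)) ^ K :=
            pow_le_pow_left₀ (by positivity) (mul_le_mul_of_nonneg_left hNR (by positivity)) K
        _ = (4 * C0) ^ K * R ^ (2 * K) := by
            rw [pow_mul, ← mul_pow]
            congr 1
            ring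
    have f5 : (2 : ℝ) ^ k * ((2 * C1 * R ^ K) *
        (R ^ (3 / 2 : ℝ) * N * (K.factorial * Ex * (4 * R * N) ^ K))) ≤
        2 ^ K * ((2 * C1 * R ^ K) * (R ^ 2 * (C0 * R) * (K.factorial *
          Real.exp (-(1 / (8 * C0) * R ^ a)) * ((4 * C0) ^ K * R ^ (2 * K))))) := by
      gcongr
    refine f5.trans ?_
    have f6 := hsm R hR
    have hRM : 0 < R ^ M := Real.rpow_pos_of_pos hRp M
    have f7 : R ^ (3 * (K : ℝ) + 3 + M) = R ^ K * R ^ 2 * R * R ^ (2 * K) * R ^ M := by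
      rw [Real.rpow_add hRp]
      congr 1
      have : (3 * (K : ℝ) + 3) = ((3 * K + 3 : ℕ) : ℝ) := by push_cast; ring
      rw [this, Real.rpow_natCast]
      ring
    rw [f7] at f6
    rw [Real.rpow_neg hRp.le, ← one_div, le_div_iff₀ hRM]
    refine le_trans (le_of_eq ?_) f6
    ring
  · have hz : iteratedFDeriv ℝ k (fun v : ℂ => ((ch (R ^ (1 - 2 * b) * ‖v‖ ^ 2) -
        ch (R ^ (1 - 2 * a) * ‖v‖ ^ 2) : ℝ) : ℂ) *
        (c * Complex.exp (Complex.I * (R : ℂ) * (qf Mx v / 2)))) v = 0 := by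
      by_contra hne
      apply hS
      have h1 := support_iteratedFDeriv_subset (𝕜 := ℝ) k hne
      have hcl : IsClosed {v : ℂ | R ^ (-(1 / 2) + a) / 2 ≤ ‖v‖ ∧ ‖v‖ ≤ R ^ (-(1 / 2) + b)} :=
        (isClosed_le continuous_const continuous_norm).inter
          (isClosed_le continuous_norm continuous_const)
      exact closure_minimal (fun v hv => sup v hv) hcl h1
    rw [hz, norm_zero]
    positivity

theorem VD0_M0 {Γ : Subgroup SL(2, ℝ)} {δ : ℝ} {B : ℕ → ℝ} {D : Dyn} (h : OKD Γ δ B D)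
    (E : ℝ) (g : SL(2, ℝ)) : D.M E 0 g = Complex.I • 1 := by
  rw [Dyn.M, h.P0, h.Y0, inv_one, mul_one]

theorem VD0_zero {Γ : Subgroup SL(2, ℝ)} {δ : ℝ} {B : ℕ → ℝ} {D : Dyn} (h : OKD Γ δ B D)
    (ch : ℝ → ℝ) (ζ R : ℝ) (p : SL(2, ℝ) × ℝ) (v : ℂ) :
    fG D ch ζ R p v = pv D ch ζ ζ R 0 p v := by
  rw [fG, pv, b0, VD0_M0 h, h.a0, h.S0, h.fl0]
  have e1 : qf (Complex.I • (1 : Matrix (Fin 2) (Fin 2) ℂ)) v = Complex.I * ((‖v‖ ^ 2 : ℝ) : ℂ) := by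
    rw [← Complex.normSq_eq_norm_sq, Complex.normSq_apply]
    simp only [qf, Matrix.smul_apply, Matrix.one_apply, smul_eq_mul]
    push_cast
    simp
    ring
  rw [e1]
  have e2 : Complex.exp (Complex.I * (R : ℂ) * (((0 + rho D.U p.2 p.1 * v.re : ℝ) : ℂ) +
      Complex.I * ((‖v‖ ^ 2 : ℝ) : ℂ) / 2)) =
      Complex.exp ((-(R * ‖v‖ ^ 2 / 2) : ℝ) : ℂ) *
        Complex.exp (((R * rho D.U p.2 p.1 * v.re : ℝ) : ℂ) * Complex.I) := by
    rw [← Complex.exp_add]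
    congr 1
    push_cast
    linear_combination (↑R * (‖v‖ : ℂ) ^ 2 / 2) * Complex.I_mul_I
  rw [e2, ← Complex.ofReal_exp]
  push_cast
  ring

theorem VD0_split {D : Dyn} (ch : ℝ → ℝ) (ζ a b R t : ℝ) (p : SL(2, ℝ) × ℝ) (v : ℂ) :
    pv D ch ζ b R t p v - pv D ch ζ a R t p v =
      Complex.exp (((R * rho D.U p.2 (D.fl p.2 t p.1) * v.re : ℝ) : ℂ) * Complex.I) *
      (((ch (R ^ (1 - 2 * b) * ‖v‖ ^ 2) - ch (R ^ (1 - 2 * a) * ‖v‖ ^ 2) : ℝ) : ℂ) *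
        (((cR ch ζ R : ℂ) * D.a p.2 t p.1 * Complex.exp (((R * D.S p.2 t p.1 : ℝ) : ℂ) * Complex.I)) *
          Complex.exp (Complex.I * (R : ℂ) * (qf (D.M p.2 t p.1) v / 2)))) := by
  rw [pv, pv]
  have e : Complex.exp (Complex.I * (R : ℂ) * (((D.S p.2 t p.1 +
      rho D.U p.2 (D.fl p.2 t p.1) * v.re : ℝ) : ℂ) + qf (D.M p.2 t p.1) v / 2)) =
      Complex.exp (((R * rho D.U p.2 (D.fl p.2 t p.1) * v.re : ℝ) : ℂ) * Complex.I) *
      Complex.exp (((R * D.S p.2 t p.1 : ℝ) : ℂ) * Complex.I) *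
      Complex.exp (Complex.I * (R : ℂ) * (qf (D.M p.2 t p.1) v / 2)) := by
    rw [← Complex.exp_add, ← Complex.exp_add]
    congr 1
    push_cast
    ring
  rw [e]
  push_cast
  ring

theorem VD0_proof (hVCT : VCT_stmt) (hVBR : VBR_stmt) (hVYB : VYB_stmt) : VD0_stmt := by
  obtain ⟨C0, hC0, hyb⟩ := hVYB
  refine ⟨C0 + 8, by linarith, ?_⟩
  intro ch K e ζ ζ1 ζ2 M hch hRg h12 h2
  obtain ⟨he0, hζ0, hζ1, heζ, h1⟩ := hRg
  have hζ2 : ζ2 ≤ 1 / 8 := by nlinarith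
  have hC00 : 0 < C0 := by linarith
  obtain ⟨R1, hR1, hbr⟩ := hVBR ch ζ hch hζ0 (by linarith)
  obtain ⟨R2, hR2, hcA⟩ := VD0_core hVCT ch K ζ ζ2 M C0 hch hζ0 (by linarith) hζ2 hC0
  obtain ⟨R3, hR3, hcB⟩ := VD0_core hVCT ch K ζ1 ζ2 M C0 hch (by linarith) h12 hζ2 hC0
  refine ⟨max R1 (max R2 R3), le_max_of_le_left hR1, ?_⟩
  intro R δ Γ B D p t hR hD hδ hp ht
  have hRR1 : R1 ≤ R := (le_max_left _ _).trans hR
  have hRR2 : R2 ≤ R := ((le_max_left _ _).trans (le_max_right _ _)).trans hR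
  have hRR3 : R3 ≤ R := ((le_max_right _ _).trans (le_max_right _ _)).trans hR
  have hR1' : 1 ≤ R := hR1.trans hRR1
  have hRp : 0 < R := by linarith
  obtain ⟨-, -, -, -, -, -, -, hcl, hcu⟩ := hbr R hRR1
  have hcR0 : 0 ≤ cR ch ζ R := Real.sqrt_nonneg _
  -- general step
  have key : ∀ (a s : ℝ), a ≤ ζ2 → C0 * Real.exp (C0 * |s|) ≤ C0 * R ^ a →
      (∀ (N : ℝ) (c : ℂ) (Mx : Matrix (Fin 2) (Fin 2) ℂ), 1 ≤ N → N ≤ C0 * R ^ a →
        ‖c‖ ≤ R ^ (3 / 2 : ℝ) * N → (∀ i j, ‖Mx i j‖ ≤ N) →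
        (∀ v : ℂ, ‖v‖ ^ 2 ≤ N * (qf Mx v).im) →
        ContDiff ℝ ∞ (fun v : ℂ => ((ch (R ^ (1 - 2 * ζ2) * ‖v‖ ^ 2) -
          ch (R ^ (1 - 2 * a) * ‖v‖ ^ 2) : ℝ) : ℂ) *
            (c * Complex.exp (Complex.I * (R : ℂ) * (qf Mx v / 2)))) ∧
        (∀ v : ℂ, ((ch (R ^ (1 - 2 * ζ2) * ‖v‖ ^ 2) - ch (R ^ (1 - 2 * a) * ‖v‖ ^ 2) : ℝ) : ℂ) *
            (c * Complex.exp (Complex.I * (R : ℂ) * (qf Mx v / 2))) ≠ 0 →
          ‖v‖ ≤ R ^ (-(1 / 2) + ζ2)) ∧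
        ∀ k ≤ K, ∀ v : ℂ, ‖iteratedFDeriv ℝ k (fun v : ℂ => ((ch (R ^ (1 - 2 * ζ2) * ‖v‖ ^ 2) -
          ch (R ^ (1 - 2 * a) * ‖v‖ ^ 2) : ℝ) : ℂ) *
            (c * Complex.exp (Complex.I * (R : ℂ) * (qf Mx v / 2)))) v‖ ≤ R ^ (-M)) →
      Pk K ((C0 + 8) * ζ2) (R ^ (-M)) R (rho D.U p.2 (D.fl p.2 s p.1))
        (fun v => pv D ch ζ ζ2 R s p v - pv D ch ζ a R s p v) := by
    intro a s ha hN hc
    obtain ⟨b1, b2, b3, -⟩ := hyb Γ δ B D hD hδ p.2 s p.1 hp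
    have hN1 : 1 ≤ C0 * Real.exp (C0 * |s|) := by
      have : 1 ≤ Real.exp (C0 * |s|) := Real.one_le_exp (by positivity)
      nlinarith
    obtain ⟨c1, c2, c3⟩ := hc (C0 * Real.exp (C0 * |s|))
      ((cR ch ζ R : ℂ) * D.a p.2 s p.1 * Complex.exp (((R * D.S p.2 s p.1 : ℝ) : ℂ) * Complex.I))
      (D.M p.2 s p.1) hN1 hN (by
        rw [norm_mul, norm_mul, Complex.norm_exp_ofReal_mul_I, mul_one, Complex.norm_real,
          Real.norm_eq_abs, abs_of_nonneg hcR0]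
        exact mul_le_mul hcu b2 (norm_nonneg _) (Real.rpow_nonneg hRp.le _))
      (fun i j => (b1 i j).2.2.2) b3
    have hexp : ζ2 ≤ (C0 + 8) * ζ2 := by nlinarith
    refine ⟨_, c1, fun v hv => (c2 v hv).trans ?_, fun k hk v => (c3 k hk v).trans ?_,
      fun v => VD0_split ch ζ a ζ2 R s p v⟩
    · exact Real.rpow_le_rpow_of_exponent_le hR1' (by linarith)
    · have g1 : (1 : ℝ) ≤ (R ^ (1 / 2 + (C0 + 8) * ζ2)) ^ k :=
        one_le_pow₀ (Real.one_le_rpow hR1' (by nlinarith))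
      have g2 : 0 ≤ R ^ (-M) := Real.rpow_nonneg hRp.le _
      nlinarith
  constructor
  · have h := key ζ 0 (by linarith) (by
      rw [abs_zero, mul_zero, Real.exp_zero]
      exact mul_le_mul_of_nonneg_left (Real.one_le_rpow hR1' hζ0.le) hC00.le)
      (fun N c Mx n1 n2 n3 n4 n5 => hcA R N c Mx hRR2 n1 n2 n3 n4 n5)
    have e2 : (fun v => pv D ch ζ ζ2 R 0 p v - fG D ch ζ R p v) =
        fun v => pv D ch ζ ζ2 R 0 p v - pv D ch ζ ζ R 0 p v := by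
      funext v
      rw [VD0_zero hD]
    rw [e2]
    rw [hD.fl0] at h
    exact h
  · refine key ζ1 t h12 ?_ (fun N c Mx n1 n2 n3 n4 n5 => hcB R N c Mx hRR3 n1 n2 n3 n4 n5)
    refine mul_le_mul_of_nonneg_left ?_ hC00.le
    have hlog : 0 ≤ Real.log R := Real.log_nonneg hR1'
    rw [Real.rpow_def_of_pos hRp]
    apply Real.exp_le_exp.2
    calc C0 * |t| ≤ C0 * (e * Real.log R) := mul_le_mul_of_nonneg_left ht hC00.le
      _ = (C0 * e) * Real.log R := by ring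
      _ ≤ ζ1 * Real.log R := by
          refine mul_le_mul_of_nonneg_right ?_ hlog
          nlinarith
      _ = Real.log R * ζ1 := mul_comm _ _

end Pool.Agent.VQ
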