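import Pool.Agent.helper74.VQ.SpecB

set_option autoImplicit false

open scoped MatrixGroups ContDiff Topology UpperHalfPlane ComplexConjugate ENNReal
open UpperHalfPlane MeasureTheory Filter Set

namespace Pool.Agent.VQ

open Pool.Agent.RS

/-- Monomials times the Gaussian are bounded. -/
theorem VCT_mono (m : ℕ) (x : ℝ) :
    |x| ^ m * Real.exp (-(x ^ 2 / 2)) ≤ 1 + 2 ^ m * m.factorial := by
  have h1 : (x ^ 2 / 2) ^ m / m.factorial ≤ Real.exp (x ^ 2 / 2) :=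
    Real.pow_div_factorial_le_exp _ (by positivity) m
  have hf : (0 : ℝ) < m.factorial := by exact_mod_cast Nat.factorial_pos m
  have h2 : (x ^ 2 / 2) ^ m ≤ m.factorial * Real.exp (x ^ 2 / 2) := by
    rw [div_le_iff₀ hf] at h1
    linarith
  have h3 : |x| ^ (2 * m) ≤ 2 ^ m * m.factorial * Real.exp (x ^ 2 / 2) := by
    have e : |x| ^ (2 * m) = 2 ^ m * (x ^ 2 / 2) ^ m := by
      rw [pow_mul, sq_abs, ← mul_pow]
      congr 1
      ring
    rw [e, mul_assoc]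
    exact mul_le_mul_of_nonneg_left h2 (by positivity)
  have h4 : |x| ^ m ≤ 1 + |x| ^ (2 * m) := by
    have e : |x| ^ (2 * m) = (|x| ^ m) ^ 2 := by rw [mul_comm, pow_mul]
    rw [e]
    nlinarith [sq_nonneg (|x| ^ m - 1), pow_nonneg (abs_nonneg x) m]
  have h5 : Real.exp (-(x ^ 2 / 2)) ≤ 1 := by
    rw [← Real.exp_zero]
    exact Real.exp_le_exp.2 (by nlinarith [sq_nonneg x])
  have h6 : Real.exp (x ^ 2 / 2) * Real.exp (-(x ^ 2 / 2)) = 1 := by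
    rw [← Real.exp_add, add_neg_cancel, Real.exp_zero]
  have h7 := (Real.exp_pos (-(x ^ 2 / 2))).le
  calc |x| ^ m * Real.exp (-(x ^ 2 / 2))
      ≤ (1 + |x| ^ (2 * m)) * Real.exp (-(x ^ 2 / 2)) := mul_le_mul_of_nonneg_right h4 h7
    _ ≤ (1 + 2 ^ m * m.factorial * Real.exp (x ^ 2 / 2)) * Real.exp (-(x ^ 2 / 2)) :=
        mul_le_mul_of_nonneg_right (by linarith) h7
    _ = Real.exp (-(x ^ 2 / 2)) + 2 ^ m * m.factorial *
        (Real.exp (x ^ 2 / 2) * Real.exp (-(x ^ 2 / 2))) := by ring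
    _ ≤ 1 + 2 ^ m * m.factorial := by rw [h6, mul_one]; linarith

theorem VCT_poly (p : Polynomial ℤ) : ∃ C : ℝ, 0 ≤ C ∧ ∀ x : ℝ,
    |Polynomial.aeval x p * Real.exp (-(x ^ 2 / 2))| ≤ C := by
  refine ⟨∑ i ∈ Finset.range (p.natDegree + 1), |(p.coeff i : ℝ)| * (1 + 2 ^ i * i.factorial), ?_, ?_⟩
  · exact Finset.sum_nonneg fun i _ => by positivity
  · intro x
    rw [Polynomial.aeval_eq_sum_range, Finset.sum_mul]
    refine (Finset.abs_sum_le_sum_abs _ _).trans (Finset.sum_le_sum fun i _ => ?_)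
    rw [zsmul_eq_mul, abs_mul, abs_mul, abs_pow, mul_assoc, abs_of_pos (Real.exp_pos _)]
    exact mul_le_mul_of_nonneg_left (VCT_mono i x) (abs_nonneg _)

theorem VCT_gauss1 (k : ℕ) : ∃ C : ℝ, 0 ≤ C ∧ ∀ x : ℝ,
    ‖iteratedFDeriv ℝ k (fun y : ℝ => Real.exp (-(y ^ 2 / 2))) x‖ ≤ C := by
  obtain ⟨C, hC, h⟩ := VCT_poly (Polynomial.hermite k)
  refine ⟨C, hC, fun x => ?_⟩
  rw [norm_iteratedFDeriv_eq_norm_iteratedDeriv, iteratedDeriv_eq_iterate,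
    Polynomial.deriv_gaussian_eq_hermite_mul_gaussian, Real.norm_eq_abs, mul_assoc, abs_mul,
    abs_pow, abs_neg, abs_one, one_pow, one_mul]
  exact h x

/-- Uniform bounds for finitely many orders. -/
theorem VCT_unif (K : ℕ) (P : ℕ → ℝ → Prop) (hP : ∀ k C C', C ≤ C' → P k C → P k C')
    (h : ∀ k, ∃ C : ℝ, 0 ≤ C ∧ P k C) : ∃ C : ℝ, 1 ≤ C ∧ ∀ k ≤ K, P k C := by
  choose c hc0 hc using h
  refine ⟨1 + ∑ k ∈ Finset.range (K + 1), c k, ?_, ?_⟩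
  · have : 0 ≤ ∑ k ∈ Finset.range (K + 1), c k := Finset.sum_nonneg fun k _ => hc0 k
    linarith
  · intro k hk
    refine hP k _ _ ?_ (hc k)
    have : c k ≤ ∑ k ∈ Finset.range (K + 1), c k :=
      Finset.single_le_sum (fun k _ => hc0 k) (Finset.mem_range.2 (Nat.lt_succ_of_le hk))
    linarith

/-- Leibniz. -/
theorem VCT_mul {K : ℕ} {F G : ℂ → ℝ} (hF : ContDiff ℝ ∞ F) (hG : ContDiff ℝ ∞ G)
    {C1 C2 m : ℝ} (hC1 : 0 ≤ C1) (hm : 0 ≤ m)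
    (h1 : ∀ k ≤ K, ∀ v, ‖iteratedFDeriv ℝ k F v‖ ≤ C1 * m ^ k)
    (h2 : ∀ k ≤ K, ∀ v, ‖iteratedFDeriv ℝ k G v‖ ≤ C2 * m ^ k) :
    ∀ k ≤ K, ∀ v, ‖iteratedFDeriv ℝ k (fun v => F v * G v) v‖ ≤ 2 ^ K * (C1 * C2) * m ^ k := by
  intro k hk v
  have hC2 : 0 ≤ C2 := by
    have := (norm_nonneg _).trans (h2 0 (Nat.zero_le _) v)
    simpa using this
  refine (norm_iteratedFDeriv_mul_le hF hG v (n := k) (by exact_mod_cast le_top)).trans ?_
  have e : ∀ i ∈ Finset.range (k + 1), (k.choose i : ℝ) * ‖iteratedFDeriv ℝ i F v‖ *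
      ‖iteratedFDeriv ℝ (k - i) G v‖ ≤ (k.choose i : ℝ) * ((C1 * C2) * m ^ k) := by
    intro i hi
    have hi' : i ≤ k := Nat.lt_succ_iff.1 (Finset.mem_range.1 hi)
    rw [mul_assoc]
    refine mul_le_mul_of_nonneg_left ?_ (by positivity)
    calc ‖iteratedFDeriv ℝ i F v‖ * ‖iteratedFDeriv ℝ (k - i) G v‖
        ≤ (C1 * m ^ i) * (C2 * m ^ (k - i)) :=
          mul_le_mul (h1 i (hi'.trans hk) v) (h2 (k - i) ((Nat.sub_le _ _).trans hk) v)
            (norm_nonneg _) (by positivity)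
      _ = (C1 * C2) * (m ^ i * m ^ (k - i)) := by ring
      _ = (C1 * C2) * m ^ k := by rw [← pow_add, Nat.add_sub_cancel' hi']
  refine (Finset.sum_le_sum e).trans ?_
  rw [← Finset.sum_mul]
  have e2 : ∑ i ∈ Finset.range (k + 1), (k.choose i : ℝ) = 2 ^ k := by
    exact_mod_cast Nat.sum_range_choose k
  rw [e2, mul_assoc (2 ^ K : ℝ)]
  refine mul_le_mul_of_nonneg_right ?_ (by positivity)
  exact pow_le_pow_right₀ (by norm_num) hk

/-- Scaling. -/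
theorem VCT_scale {K : ℕ} {F : ℂ → ℝ} (hF : ContDiff ℝ ∞ F) {C l m : ℝ} (hC : 0 ≤ C) (hl : 0 ≤ l)
    (hlm : l ≤ m) (h : ∀ k ≤ K, ∀ v, ‖iteratedFDeriv ℝ k F v‖ ≤ C) :
    ∀ k ≤ K, ∀ v, ‖iteratedFDeriv ℝ k (fun v : ℂ => F (l • v)) v‖ ≤ C * m ^ k := by
  intro k hk v
  have e : (fun v : ℂ => F (l • v)) = F ∘ (l • ContinuousLinearMap.id ℝ ℂ) := by
    funext v
    rfl
  rw [e, ContinuousLinearMap.iteratedFDeriv_comp_right (l • ContinuousLinearMap.id ℝ ℂ) hF v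
    (i := k) (by exact_mod_cast le_top)]
  refine (ContinuousMultilinearMap.norm_compContinuousLinearMap_le _ _).trans ?_
  have e2 : ‖l • ContinuousLinearMap.id ℝ ℂ‖ ≤ m := by
    rw [norm_smul, Real.norm_eq_abs, abs_of_nonneg hl]
    calc l * ‖ContinuousLinearMap.id ℝ ℂ‖ ≤ l * 1 :=
          mul_le_mul_of_nonneg_left ContinuousLinearMap.norm_id_le hl
      _ = l := mul_one l
      _ ≤ m := hlm
  rw [Finset.prod_const, Finset.card_univ, Fintype.card_fin]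
  exact mul_le_mul (h k hk _) (pow_le_pow_left₀ (norm_nonneg _) e2 k) (by positivity) hC

theorem VCT_gauss2 (K : ℕ) : ∃ C : ℝ, 1 ≤ C ∧ ∀ k ≤ K, ∀ v : ℂ,
    ‖iteratedFDeriv ℝ k (fun v : ℂ => Real.exp (-(‖v‖ ^ 2 / 2))) v‖ ≤ C := by
  obtain ⟨C, hC, h⟩ := VCT_unif K (fun k C => ∀ x : ℝ,
    ‖iteratedFDeriv ℝ k (fun y : ℝ => Real.exp (-(y ^ 2 / 2))) x‖ ≤ C)
    (fun k C C' h1 h2 x => (h2 x).trans h1) VCT_gauss1
  have hsm : ContDiff ℝ ∞ (fun y : ℝ => Real.exp (-(y ^ 2 / 2))) := by fun_prop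
  have key : ∀ (L : ℂ →L[ℝ] ℝ), ‖L‖ ≤ 1 → ∀ k ≤ K, ∀ v : ℂ,
      ‖iteratedFDeriv ℝ k (fun v : ℂ => Real.exp (-((L v) ^ 2 / 2))) v‖ ≤ C * 1 ^ k := by
    intro L hL k hk v
    have e : (fun v : ℂ => Real.exp (-((L v) ^ 2 / 2))) =
        (fun y : ℝ => Real.exp (-(y ^ 2 / 2))) ∘ L := rfl
    rw [e, ContinuousLinearMap.iteratedFDeriv_comp_right L hsm v (i := k)
      (by exact_mod_cast le_top)]
    refine (ContinuousMultilinearMap.norm_compContinuousLinearMap_le _ _).trans ?_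
    rw [Finset.prod_const, Finset.card_univ, Fintype.card_fin]
    exact mul_le_mul (h k hk _) (pow_le_pow_left₀ (norm_nonneg _) hL k) (by positivity)
      (by linarith)
  have h1 := key Complex.reCLM (by rw [Complex.reCLM_norm])
  have h2 := key Complex.imCLM (by rw [Complex.imCLM_norm])
  have s1 : ContDiff ℝ ∞ (fun v : ℂ => Real.exp (-((Complex.reCLM v) ^ 2 / 2))) :=
    hsm.comp Complex.reCLM.contDiff
  have s2 : ContDiff ℝ ∞ (fun v : ℂ => Real.exp (-((Complex.imCLM v) ^ 2 / 2))) :=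
    hsm.comp Complex.imCLM.contDiff
  have h3 := VCT_mul s1 s2 (by linarith : 0 ≤ C) zero_le_one h1 h2
  have e : (fun v : ℂ => Real.exp (-((Complex.reCLM v) ^ 2 / 2)) *
      Real.exp (-((Complex.imCLM v) ^ 2 / 2))) = fun v : ℂ => Real.exp (-(‖v‖ ^ 2 / 2)) := by
    funext v
    rw [← Real.exp_add, ← Complex.normSq_eq_norm_sq, Complex.normSq_apply]
    congr 1
    simp only [Complex.reCLM_apply, Complex.imCLM_apply]
    ring
  rw [e] at h3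
  refine ⟨2 ^ K * (C * C), ?_, fun k hk v => ?_⟩
  · have a1 : (1 : ℝ) ≤ 2 ^ K := one_le_pow₀ (by norm_num)
    have a2 : 1 ≤ C * C := by nlinarith
    nlinarith
  · have := h3 k hk v
    simpa using this

theorem VCT_cut {ch : ℝ → ℝ} (h : CH ch) : ContDiff ℝ ∞ (fun v : ℂ => ch (‖v‖ ^ 2)) :=
  h.smooth.comp (contDiff_norm_sq ℝ)

theorem VCT_cutb {ch : ℝ → ℝ} (h : CH ch) (K : ℕ) : ∃ C : ℝ, 1 ≤ C ∧ ∀ k ≤ K, ∀ v : ℂ,
    ‖iteratedFDeriv ℝ k (fun v : ℂ => ch (‖v‖ ^ 2)) v‖ ≤ C := by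
  refine VCT_unif K (fun k C => ∀ v : ℂ,
    ‖iteratedFDeriv ℝ k (fun v : ℂ => ch (‖v‖ ^ 2)) v‖ ≤ C)
    (fun k C C' h1 h2 x => (h2 x).trans h1) fun k => ?_
  have hs : HasCompactSupport (fun v : ℂ => ch (‖v‖ ^ 2)) := by
    refine HasCompactSupport.intro (isCompact_closedBall (0 : ℂ) 1) fun v hv => h.zero _ ?_
    rw [mem_closedBall_zero_iff, not_le] at hv
    nlinarith
  obtain ⟨C, hC⟩ := Continuous.bounded_above_of_compact_support
    ((VCT_cut h).continuous_iteratedFDeriv (m := k) (by exact_mod_cast le_top))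
    (hs.iteratedFDeriv (𝕜 := ℝ) k)
  exact ⟨C, (norm_nonneg _).trans (hC 0), hC⟩

theorem VCT_ofReal {f : ℂ → ℝ} (hf : ContDiff ℝ ∞ f) (k : ℕ) (v : ℂ) :
    ‖iteratedFDeriv ℝ k (fun v : ℂ => ((f v : ℝ) : ℂ)) v‖ = ‖iteratedFDeriv ℝ k f v‖ := by
  have e : (fun v : ℂ => ((f v : ℝ) : ℂ)) = Complex.ofRealLI ∘ f := rfl
  rw [e]
  exact LinearIsometry.norm_iteratedFDeriv_comp_left (n := ∞) Complex.ofRealLI hf.contDiffAt
    (by exact_mod_cast le_top)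

theorem VCT_proof : VCT_stmt := by
  intro ch K h
  obtain ⟨C1, hC1, h1⟩ := VCT_cutb h K
  obtain ⟨C2, hC2, h2⟩ := VCT_gauss2 K
  have hbig : (1 : ℝ) ≤ 2 ^ K := one_le_pow₀ (by norm_num)
  have hCC : 1 ≤ C2 * C1 := by nlinarith
  refine ⟨2 ^ K * (C2 * C1), by nlinarith, ?_⟩
  intro ζ R hζ hζ2 hR
  have hR0 : 0 < R := by linarith
  set l : ℝ := R ^ (1 / 2 - ζ) with hl
  set m : ℝ := R ^ (1 / 2 : ℝ) with hm
  have hl0 : 0 < l := Real.rpow_pos_of_pos hR0 _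
  have hm0 : 0 < m := Real.rpow_pos_of_pos hR0 _
  have hlm : l ≤ m := Real.rpow_le_rpow_of_exponent_le hR (by linarith)
  have hl2 : l ^ 2 = R ^ (1 - 2 * ζ) := by
    rw [hl, ← Real.rpow_natCast, ← Real.rpow_mul hR0.le]
    congr 1
    push_cast
    ring
  have hm2 : m ^ 2 = R := by
    rw [hm, ← Real.rpow_natCast, ← Real.rpow_mul hR0.le]
    norm_num
  have hli : R ^ (-(1 / 2) + ζ) = l⁻¹ := by
    rw [hl, ← Real.rpow_neg hR0.le]
    congr 1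
    ring
  have e1 : (fun v : ℂ => ch (R ^ (1 - 2 * ζ) * ‖v‖ ^ 2)) = fun v : ℂ => ch (‖l • v‖ ^ 2) := by
    funext v
    rw [norm_smul, Real.norm_eq_abs, abs_of_pos hl0, mul_pow, hl2]
  have s1 : ContDiff ℝ ∞ (fun v : ℂ => ch (‖l • v‖ ^ 2)) :=
    (VCT_cut h).comp (contDiff_const_smul l)
  have s1' : ContDiff ℝ ∞ (fun v : ℂ => ch (R ^ (1 - 2 * ζ) * ‖v‖ ^ 2)) := by rw [e1]; exact s1
  have sG : ContDiff ℝ ∞ (fun v : ℂ => Real.exp (-(‖v‖ ^ 2 / 2))) :=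
    (((contDiff_norm_sq ℝ).div_const 2).neg).exp
  have s2 : ContDiff ℝ ∞ (fun v : ℂ => Real.exp (-(‖m • v‖ ^ 2 / 2))) :=
    sG.comp (contDiff_const_smul m)
  have b1 := VCT_scale (VCT_cut h) (by linarith : 0 ≤ C1) hl0.le hlm h1
  have b2 := VCT_scale sG (by linarith : 0 ≤ C2) hm0.le le_rfl h2
  refine ⟨?_, ?_, ?_, ?_, ?_⟩
  · exact Complex.ofRealCLM.contDiff.comp s1'
  · intro v hv
    rw [hli]
    by_contra hcon
    rw [not_le] at hcon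
    apply hv
    apply h.zero
    have a1 : 1 < l * ‖v‖ := by
      rw [inv_lt_iff_one_lt_mul₀ hl0] at hcon
      linarith
    rw [← hl2, ← mul_pow]
    nlinarith
  · intro k hk v
    rw [VCT_ofReal s1' k v, e1]
    refine (b1 k hk v).trans ?_
    refine mul_le_mul_of_nonneg_right ?_ (by positivity)
    have : C1 ≤ C2 * C1 := by nlinarith
    nlinarith
  · intro v hv
    apply h.one
    rw [hli] at hv
    have a1 : l * ‖v‖ ≤ 1 / 2 := by
      calc l * ‖v‖ ≤ l * (l⁻¹ / 2) := mul_le_mul_of_nonneg_left hv hl0.le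
        _ = 1 / 2 := by field_simp
    rw [← hl2, ← mul_pow]
    have a2 : 0 ≤ l * ‖v‖ := by positivity
    nlinarith
  · intro k hk v
    have e2 : (fun v : ℂ => b0 ch ζ R v) = fun v : ℂ => Real.exp (-(‖m • v‖ ^ 2 / 2)) *
        ch (‖l • v‖ ^ 2) := by
      funext v
      rw [b0, norm_smul, norm_smul, Real.norm_eq_abs, Real.norm_eq_abs, abs_of_pos hl0,
        abs_of_pos hm0, mul_pow, mul_pow, hl2, hm2]
    have s3 : ContDiff ℝ ∞ (fun v : ℂ => b0 ch ζ R v) := by rw [e2]; exact s2.mul s1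
    rw [VCT_ofReal s3 k v, e2]
    exact VCT_mul s2 s1 (by linarith) hm0.le b2 b1 k hk v

end Pool.Agent.VQ
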