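import Pool.Agent.helper93.VQ.Spec4c

set_option autoImplicit false

open scoped MatrixGroups ContDiff Topology UpperHalfPlane ComplexConjugate ENNReal
open UpperHalfPlane MeasureTheory Filter Set

namespace Pool.Agent.VQ

open Pool.Agent.RS
open Pool.Agent.RPQ (mean)
open Pool.Agent.VQE (nm)

theorem RI7_okd {Γ : Subgroup SL(2, ℝ)} {δ δ' : ℝ} {B : ℕ → ℝ} {D : Dyn} (h : δ ≤ δ')
    (H : OKD Γ δ B D) : OKD Γ δ' B D :=
  { H with pot := { H.pot with near := fun g v hv n hn => (H.pot.near g v hv n hn).trans h } }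

theorem RI7_adm {C C' : ℝ} {A : Prm} (hC : 0 < C') (h : C' ≤ C) (H : Adm C A) : Adm C' A := by
  have h1 := H.e3
  have h2 : 0 ≤ A.z := (mul_nonneg (by linarith) h1.le).trans H.z
  have h3 : 0 ≤ A.z1 := (mul_nonneg (by linarith) h2).trans H.z1
  have h4 : 0 ≤ A.z2 := (mul_nonneg (by linarith) h3).trans H.z2
  exact ⟨H.e3, H.m, (mul_le_mul_of_nonneg_right h h1.le).trans H.z,
    (mul_le_mul_of_nonneg_right h h2).trans H.z1, (mul_le_mul_of_nonneg_right h h3).trans H.z2,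
    (mul_le_mul_of_nonneg_right h (by positivity)).trans H.up, H.tu⟩

theorem RI7_z2 {A : Prm} (H : Adm 10 A) : 0 ≤ A.z2 ∧ A.z2 ≤ 1 / 10 := by
  have h1 := H.e3
  have h2 : 0 ≤ A.z := (mul_nonneg (by linarith) h1.le).trans H.z
  have h3 : 0 ≤ A.z1 := (mul_nonneg (by linarith) h2).trans H.z1
  have h4 : 0 ≤ A.z2 := (mul_nonneg (by linarith) h3).trans H.z2
  have h5 : (1 : ℝ) ≤ A.m := by exact_mod_cast H.m
  have h6 := H.up
  exact ⟨h4, by nlinarith⟩

/-- the jitter is close to `1` -/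
theorem RI7_nm (x s r : ℝ) (hr : r ≤ 1 / 20000) (hx : |x| ≤ r) (hs : |s| ≤ r) :
    nm (nM x * aM s) ≤ 1 / 10000 := by
  have hs' := abs_le.1 hs
  have hx' := abs_le.1 hx
  have hr0 : 0 ≤ r := (abs_nonneg x).trans hx
  have e1 : |Real.exp (s / 2) - 1| ≤ 1 / 10000 := by
    have h := Real.abs_exp_sub_one_le (x := s / 2) (by rw [abs_le]; constructor <;> linarith)
    refine h.trans ?_
    have : |s / 2| ≤ r / 2 := by rw [abs_le]; constructor <;> linarith
    linarith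
  have e2 : |Real.exp (-(s / 2)) - 1| ≤ 1 / 10000 := by
    have h := Real.abs_exp_sub_one_le (x := -(s / 2)) (by rw [abs_le]; constructor <;> linarith)
    refine h.trans ?_
    have : |-(s / 2)| ≤ r / 2 := by rw [abs_le]; constructor <;> linarith
    linarith
  have e3 : |x * Real.exp (-(s / 2))| ≤ 1 / 10000 := by
    have h := abs_le.1 e2
    rw [abs_mul, abs_of_pos (Real.exp_pos _)]
    calc |x| * Real.exp (-(s / 2)) ≤ r * 2 :=
          mul_le_mul hx (by linarith [h.2]) (Real.exp_pos _).le hr0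
      _ ≤ 1 / 10000 := by linarith
  have m00 : (nM x * aM s).1 0 0 = Real.exp (s / 2) := by
    simp [nM, aM, Matrix.mul_apply, Fin.sum_univ_two]
  have m01 : (nM x * aM s).1 0 1 = x * Real.exp (-(s / 2)) := by
    simp [nM, aM, Matrix.mul_apply, Fin.sum_univ_two]
  have m10 : (nM x * aM s).1 1 0 = 0 := by
    simp [nM, aM, Matrix.mul_apply, Fin.sum_univ_two]
  have m11 : (nM x * aM s).1 1 1 = Real.exp (-(s / 2)) := by
    simp [nM, aM, Matrix.mul_apply, Fin.sum_univ_two]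
  rw [nm, m00, m01, m10, m11, abs_zero]
  exact max_le (max_le e1 e3) (max_le (by norm_num) e2)

/-- the integral over the noise box -/
theorem RI7_box (r : ℝ) (hr : 0 ≤ r) (f : ℝ × ℝ × ℝ × ℝ → ENNReal) (hf : Measurable f) (c : ENNReal)
    (h : ∀ x s ε : ℝ, |x| ≤ r → |s| ≤ r → |ε| ≤ r → ∫⁻ u in Icc (-r) r, f (u, x, s, ε) ≤ c) :
    ∫⁻ o in bx r, f o ≤ c * ENNReal.ofReal ((2 * r) ^ 3) := by
  rw [bx, Measure.volume_eq_prod, ← Measure.prod_restrict, lintegral_prod_symm _ hf.aemeasurable]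
  have h1 : ∀ y ∈ (Icc (-r) r ×ˢ Icc (-r) r ×ˢ Icc (-r) r : Set (ℝ × ℝ × ℝ)),
      ∫⁻ u in Icc (-r) r, f (u, y) ≤ c := by
    rintro ⟨x, s, ε⟩ ⟨h1, h2, h3⟩
    exact h x s ε (abs_le.2 h1) (abs_le.2 h2) (abs_le.2 h3)
  refine (setLIntegral_mono' (measurableSet_Icc.prod (measurableSet_Icc.prod measurableSet_Icc))
    h1).trans ?_
  rw [setLIntegral_const]
  refine mul_le_mul_right ?_ _
  rw [Measure.volume_eq_prod, Measure.prod_prod, Measure.volume_eq_prod, Measure.prod_prod,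
    Real.volume_Icc, ← ENNReal.ofReal_mul (by linarith), ← ENNReal.ofReal_mul (by linarith)]
  apply ENNReal.ofReal_le_ofReal
  apply le_of_eq
  ring

/-- The iterates of `PV` are measurable. -/
theorem RI7_meas {D : Dyn} {A : Prm} {R : ℝ}
    (h : ∀ V : SL(2, ℝ) × ℝ → ENNReal, Measurable V → Measurable (PV D A R V)) (n : ℕ)
    (V : SL(2, ℝ) × ℝ → ENNReal) (hV : Measurable V) : Measurable ((PV D A R)^[n] V) := by
  induction n with
  | zero => exact hV
  | succ n ih =>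
    rw [Function.iterate_succ_apply']
    exact h _ ih

theorem RI7_ng : Measurable (fun q : SL(2, ℝ) × ℝ => (ngM * q.1, q.2)) := by
  have h1 : Continuous (fun g : SL(2, ℝ) => ngM * g) := continuous_const_mul ngM
  have h2 : Measurable (fun g : SL(2, ℝ) => ngM * g) := h1.measurable
  exact (h2.comp measurable_fst).prodMk measurable_snd

/-- The final numerical inequality. -/
theorem RI7_num (R C z th e2 : ℝ) (b : ℕ) (hR : 1 ≤ R) (hC : 0 ≤ C) (he2 : 0 < e2)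
    (hth : 0 < th) (_hz : 0 ≤ z) (hz0 : z ≤ th * e2 / (2 * (C + 8))) (hb : b * e2 ≤ 7 / 10)
    (hbig : (64 * Real.pi) ^ (7 / 10 / e2) ≤ R ^ (th / 2)) :
    (R ^ (4 + C * z)) ^ b * ((32 * (R ^ (-(1 / 2) + 2 * z)) ^ 4) ^ b * R ^ (-(2 * th))) ≤
      R ^ (-th) * (R ^ 2 / (2 * Real.pi)) ^ b := by
  have hRp : 0 < R := by linarith
  have hpi := Real.pi_pos
  have e1 : (R ^ (-(1 / 2) + 2 * z)) ^ 4 = R ^ (-2 + 8 * z) := by
    rw [← Real.rpow_natCast, ← Real.rpow_mul hRp.le]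
    congr 1
    push_cast
    ring
  have e2' : R ^ (4 + C * z) * R ^ (-2 + 8 * z) = R ^ ((C + 8) * z) * R ^ 2 := by
    have : (R : ℝ) ^ 2 = R ^ (2 : ℝ) := by norm_cast
    rw [this, ← Real.rpow_add hRp, ← Real.rpow_add hRp]
    congr 1
    ring
  have key : (64 * Real.pi) ^ b * (R ^ ((C + 8) * z)) ^ b ≤ R ^ th := by
    have k1 : (64 * Real.pi) ^ b ≤ R ^ (th / 2) := by
      refine le_trans ?_ hbig
      rw [← Real.rpow_natCast]
      apply Real.rpow_le_rpow_of_exponent_le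
      · nlinarith [Real.pi_gt_three]
      · rw [le_div_iff₀ he2]
        exact hb
    have k2 : (R ^ ((C + 8) * z)) ^ b ≤ R ^ (th / 2) := by
      rw [← Real.rpow_natCast, ← Real.rpow_mul hRp.le]
      apply Real.rpow_le_rpow_of_exponent_le hR
      have hC8 : 0 < C + 8 := by linarith
      have h1 : (C + 8) * z ≤ th * e2 / 2 := by
        calc (C + 8) * z ≤ (C + 8) * (th * e2 / (2 * (C + 8))) :=
              mul_le_mul_of_nonneg_left hz0 hC8.le
          _ = th * e2 / 2 := by field_simp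
      have hb0 : (0 : ℝ) ≤ b := Nat.cast_nonneg b
      calc (C + 8) * z * b ≤ th * e2 / 2 * b := mul_le_mul_of_nonneg_right h1 hb0
        _ = th / 2 * (b * e2) := by ring
        _ ≤ th / 2 * 1 := mul_le_mul_of_nonneg_left (by linarith) (by linarith)
        _ = th / 2 := mul_one _
    calc (64 * Real.pi) ^ b * (R ^ ((C + 8) * z)) ^ b ≤ R ^ (th / 2) * R ^ (th / 2) :=
          mul_le_mul k1 k2 (by positivity) (by positivity)
      _ = R ^ th := by rw [← Real.rpow_add hRp]; congr 1; ring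
  have e3 : (R ^ (4 + C * z)) ^ b * ((32 * (R ^ (-(1 / 2) + 2 * z)) ^ 4) ^ b * R ^ (-(2 * th))) =
      ((64 * Real.pi) ^ b * (R ^ ((C + 8) * z)) ^ b) * R ^ (-(2 * th)) *
        (R ^ 2 / (2 * Real.pi)) ^ b := by
    rw [e1, ← mul_assoc, ← mul_pow, ← mul_pow]
    have : R ^ (4 + C * z) * (32 * R ^ (-2 + 8 * z)) =
        (64 * Real.pi * R ^ ((C + 8) * z)) * (R ^ 2 / (2 * Real.pi)) := by
      rw [show R ^ (4 + C * z) * (32 * R ^ (-2 + 8 * z)) =
        32 * (R ^ (4 + C * z) * R ^ (-2 + 8 * z)) by ring, e2']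
      field_simp
      ring
    rw [this, mul_pow]
    ring
  rw [e3]
  refine mul_le_mul_of_nonneg_right ?_ (by positivity)
  calc (64 * Real.pi) ^ b * (R ^ ((C + 8) * z)) ^ b * R ^ (-(2 * th)) ≤ R ^ th * R ^ (-(2 * th)) :=
        mul_le_mul_of_nonneg_right key (by positivity)
    _ = R ^ (-th) := by rw [← Real.rpow_add hRp]; congr 1; ring

/-- The conditions on `R`. -/
theorem RI7_large (d e2 th : ℝ) (hd : 0 < d) (he2 : 0 < e2) (hth : 0 < th) : ∃ R0 : ℝ, 2 ≤ R0 ∧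
    ∀ R : ℝ, R0 ≤ R → 2 ≤ e2 * Real.log R ∧ 5 / 4 * R ^ (-(1 / 4) : ℝ) ≤ d / 4 ∧
      R ^ (-(3 / 10) : ℝ) ≤ 1 / 20000 ∧ 28 / 10 / e2 ≤ R ^ (1 / 20 : ℝ) ∧
      (64 * Real.pi) ^ (7 / 10 / e2) ≤ R ^ (th / 2) := by
  have t1 : Tendsto (fun R : ℝ => e2 * Real.log R) atTop atTop :=
    Real.tendsto_log_atTop.const_mul_atTop he2
  have t2 : Tendsto (fun R : ℝ => R ^ (-(1 / 4) : ℝ)) atTop (𝓝 0) :=
    tendsto_rpow_neg_atTop (by norm_num)
  have t3 : Tendsto (fun R : ℝ => R ^ (-(3 / 10) : ℝ)) atTop (𝓝 0) :=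
    tendsto_rpow_neg_atTop (by norm_num)
  have t4 : Tendsto (fun R : ℝ => R ^ (1 / 20 : ℝ)) atTop atTop := tendsto_rpow_atTop (by norm_num)
  have t5 : Tendsto (fun R : ℝ => R ^ (th / 2)) atTop atTop := tendsto_rpow_atTop (by linarith)
  have E := (t1.eventually (eventually_ge_atTop 2)).and
    ((t2.eventually (gt_mem_nhds (show (0 : ℝ) < d / 5 by linarith))).and
    ((t3.eventually (gt_mem_nhds (show (0 : ℝ) < 1 / 20000 by norm_num))).and
    ((t4.eventually (eventually_ge_atTop (28 / 10 / e2))).and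
    (t5.eventually (eventually_ge_atTop ((64 * Real.pi) ^ (7 / 10 / e2)))))))
  obtain ⟨R0, h⟩ := eventually_atTop.1 E
  refine ⟨max R0 2, le_max_right _ _, fun R hR => ?_⟩
  obtain ⟨h1, h2, h3, h4, h5⟩ := h R ((le_max_left _ _).trans hR)
  exact ⟨h1, by linarith, h3.le, h4, h5⟩

theorem RI7_proof (hRLL : RLL_stmt) (hRIA : RIA_stmt) (hRIB : RIB_stmt) (hRMS : RMS_stmt)
    (hRJT : RJT_stmt) (hRGF : RGF_stmt) (hRFF : RFF_stmt) : RI7_stmt := by
  intro Γ F ch hΓ hF hch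
  obtain ⟨δL, hδL, hLL⟩ := hRLL Γ F hΓ hF
  obtain ⟨δA, CA, hδA, hCA, hIA⟩ := hRIA Γ ch hΓ hch
  obtain ⟨δB, hδB, hIB⟩ := hRIB Γ hΓ
  obtain ⟨δM, hδM, hMS⟩ := hRMS Γ hΓ
  obtain ⟨K, δ1, hK, hδ1, hFF⟩ := hRFF Γ hΓ
  have hK0 : 0 < K := by linarith
  obtain ⟨J1, J2, J3, J4, -⟩ := hRJT
  -- the constants
  obtain ⟨δ0, hδ0, g1, g2, g3, g4, g5, g6⟩ : ∃ δ0 : ℝ, 0 < δ0 ∧ δ0 ≤ δL ∧ δ0 ≤ δA ∧ δ0 ≤ δB ∧
      δ0 ≤ δM ∧ δ0 ≤ δ1 ∧ K * δ0 ≤ 1 / 10000 := by
    refine ⟨min δL (min δA (min δB (min δM (min δ1 (1 / (10000 * K)))))), ?_, ?_, ?_, ?_, ?_, ?_, ?_⟩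
    · have : 0 < 1 / (10000 * K) := by positivity
      simp only [lt_min_iff]
      exact ⟨hδL, hδA, hδB, hδM, hδ1, this⟩
    · exact min_le_left _ _
    · exact (min_le_right _ _).trans (min_le_left _ _)
    · exact ((min_le_right _ _).trans (min_le_right _ _)).trans (min_le_left _ _)
    · exact (((min_le_right _ _).trans (min_le_right _ _)).trans (min_le_right _ _)).trans
        (min_le_left _ _)
    · exact ((((min_le_right _ _).trans (min_le_right _ _)).trans (min_le_right _ _)).trans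
        (min_le_right _ _)).trans (min_le_left _ _)
    · have h : min δL (min δA (min δB (min δM (min δ1 (1 / (10000 * K)))))) ≤ 1 / (10000 * K) :=
        ((((min_le_right _ _).trans (min_le_right _ _)).trans (min_le_right _ _)).trans
        (min_le_right _ _)).trans (min_le_right _ _)
      calc K * min δL (min δA (min δB (min δM (min δ1 (1 / (10000 * K)))))) ≤
            K * (1 / (10000 * K)) := mul_le_mul_of_nonneg_left h hK0.le
        _ = 1 / 10000 := by field_simp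
  set d : ℝ := K * δ0 with hd
  have hd0 : 0 < d := by positivity
  refine ⟨δ0, max 10 CA, hδ0, le_max_of_le_left (by norm_num), ?_⟩
  intro h e hh he
  obtain ⟨v0, l0, hv0, hl0, hl0', hLL2⟩ := hLL h e hh he
  refine ⟨v0, 4 / l0, hv0, by rw [le_div_iff₀ hl0]; linarith, ?_⟩
  intro T0 E0 e2 hT0 hE0 he2 he2'
  obtain ⟨th, RL, hth, hRL, hLL3⟩ := hLL2 T0 E0 e2 hT0 hE0 he2
  have hCA8 : 0 < 2 * (CA + 8) := by linarith
  refine ⟨th, th * e2 / (2 * (CA + 8)), hth, by positivity, ?_⟩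
  intro B A hA hAe hAz
  have hA10 : Adm 10 A := RI7_adm (by norm_num) (le_max_left _ _) hA
  have hACA : Adm CA A := RI7_adm (by linarith) (le_max_right _ _) hA
  obtain ⟨hz0, hz1⟩ := RI7_z2 hA10
  obtain ⟨RA, hRA, hIA2⟩ := hIA B A hACA
  obtain ⟨RB, hRB, hIB2⟩ := hIB A hA10
  obtain ⟨RC, hRC, hlarge⟩ := RI7_large d e2 th hd0 he2 hth
  refine ⟨max RL (max RA (max RB RC)), le_max_of_le_left hRL, ?_⟩
  intro R D b hR hD hU hb1 hb2 p hp
  have r1 : RL ≤ R := (le_max_left _ _).trans hR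
  have r2' : RA ≤ R := ((le_max_left _ _).trans (le_max_right _ _)).trans hR
  have r3' : RB ≤ R :=
    (((le_max_left _ _).trans (le_max_right _ _)).trans (le_max_right _ _)).trans hR
  have r4 : RC ≤ R :=
    (((le_max_right _ _).trans (le_max_right _ _)).trans (le_max_right _ _)).trans hR
  obtain ⟨L1, L2, L3, L4, L5⟩ := hlarge R r4
  have hR1 : 1 ≤ R := by linarith
  have hRp : 0 < R := by linarith
  have htu : A.tu R = e2 * Real.log R := by
    rw [Prm.tu, Prm.sg, ← mul_assoc, hAe]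
  have hlog : 0 < Real.log R := by
    by_contra hcon
    have : e2 * Real.log R ≤ 0 := mul_nonpos_of_nonneg_of_nonpos he2.le (not_lt.1 hcon)
    linarith
  have hbe : b * e2 ≤ 7 / 10 := by
    rw [htu, ← mul_assoc] at hb2
    exact le_of_mul_le_mul_right hb2 hlog
  have hb0 : 1 ≤ b := by
    rcases Nat.eq_zero_or_pos b with h0 | h0
    · rw [h0, Nat.cast_zero, zero_mul] at hb1
      linarith
    · exact h0
  -- sizes
  set r : ℝ := r2 A R with hr
  have hrp : 0 < r := Real.rpow_pos_of_pos hRp _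
  have hr3 : r ≤ R ^ (-(3 / 10) : ℝ) := Real.rpow_le_rpow_of_exponent_le hR1 (by linarith)
  have hr4 : r ≤ 1 / 20000 := hr3.trans L3
  have hrlow : R ^ (-(1 / 2) : ℝ) ≤ r := Real.rpow_le_rpow_of_exponent_le hR1 (by linarith)
  have hq0 : 0 < R ^ (-(1 / 4) : ℝ) := Real.rpow_pos_of_pos hRp _
  have hbr : b * r ≤ 1 / 4 * R ^ (-(1 / 4) : ℝ) := by
    have e1 : R ^ (-(1 / 4) : ℝ) = R ^ (-(3 / 10) : ℝ) * R ^ (1 / 20 : ℝ) := by
      rw [← Real.rpow_add hRp]
      norm_num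
    have e3 : (b : ℝ) ≤ 7 / 10 / e2 := by rw [le_div_iff₀ he2]; exact hbe
    have e4 : (b : ℝ) ≤ 1 / 4 * R ^ (1 / 20 : ℝ) := by
      have : 7 / 10 / e2 = 1 / 4 * (28 / 10 / e2) := by ring
      rw [this] at e3
      linarith
    calc (b : ℝ) * r ≤ (1 / 4 * R ^ (1 / 20 : ℝ)) * R ^ (-(3 / 10) : ℝ) :=
          mul_le_mul e4 hr3 hrp.le (by positivity)
      _ = 1 / 4 * R ^ (-(1 / 4) : ℝ) := by rw [e1]; ring
  have hp' : |p.2| ≤ 5 / 4 * R ^ (-(1 / 4) : ℝ) := abs_le.2 hp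
  -- the domination
  have hDM := RI7_okd g4 hD
  obtain ⟨m1, m2, m3⟩ := hMS B D hDM
  set V : SL(2, ℝ) × ℝ → ENNReal := (BadP D F h e (A.tu R)).indicator (fun _ => 1) with hV
  have hVm : Measurable V := measurable_const.indicator (m3 F h e (A.tu R) hF hh)
  have step1 := hIA2 R D r2' (RI7_okd g2 hD) V hVm b p (by linarith)
  refine step1.trans ?_
  -- the iteration
  have hbase : ∀ (E : ℝ) (γ : ℝ → SL(2, ℝ)) (x b c ℓ : ℝ → ℝ) (v v' : ℝ),
      |E| ≤ 2 * R ^ (-(1 / 4) : ℝ) → RG 2 γ x b c ℓ → v < v' → l0 ≤ ℓ v' - ℓ v →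
      ∫⁻ u in Icc v v', V (γ u, E) ≤ ENNReal.ofReal (R ^ (-(2 * th)) * (v' - v)) := by
    intro E γ x b c ℓ v v' q1 q2 q3 q4
    rw [hV, htu]
    exact hLL3 B R D r1 (RI7_okd g1 hD) hU E γ x b c ℓ v v' q1 q2 q3 q4
  have hθ : 0 ≤ R ^ (-(2 * th)) := Real.rpow_nonneg hRp.le _
  have hiter := hIB2 B R D V (R ^ (-(2 * th))) l0 r3' (RI7_okd g3 hD) hVm hθ hl0 hbase (b - 1)
  have hFd : FF d D := hFF δ0 B D hδ0 g5 hD
  -- the curves
  have hE : |p.2| ≤ d / 4 := hp'.trans L2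
  have hcur := J3 (1 / 2) 2 _ _ _ _ _ (by norm_num) (by norm_num) (J4 p.1)
  obtain ⟨X, Y, Z, L, -, -, -, hL0, hL1, -, hL2⟩ := hRGF d D hFd hd0 g6 p.2 _ _ _ _ _ hE hcur
  have hτ2 : 2 ≤ A.tu R := by rw [htu]; exact L1
  have hRG := hL2 (A.tu R) hτ2
  have hlen : Real.exp (99 / 100 * A.tu R) * (2 * r) ≤ L (A.tu R) r - L (A.tu R) (-r) := by
    have q := (hL1 0 (A.tu R) (-r) r le_rfl (by linarith) (by linarith)).1
    rw [hL0, sub_zero] at q
    have e1 : r - -r = 2 * r := by ring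
    rw [e1] at q
    exact q
  -- the length after `b` steps
  have hlen2 : l0 ≤ Real.exp (9 / 10 * ((b - 1 : ℕ) * A.tu R)) *
      (99 / 100 * (Real.exp (99 / 100 * A.tu R) * (2 * r))) := by
    have e1 : ((b - 1 : ℕ) : ℝ) = b - 1 := by rw [Nat.cast_sub hb0]; simp
    rw [e1]
    have e3 : Real.exp (9 / 10 * ((b - 1) * A.tu R)) * Real.exp (99 / 100 * A.tu R) ≥
        R ^ (54 / 100 : ℝ) := by
      rw [← Real.exp_add, Real.rpow_def_of_pos hRp]
      apply Real.exp_le_exp.2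
      have e6 : 9 / 10 * ((b - 1) * A.tu R) + 99 / 100 * A.tu R =
          9 / 10 * (b * A.tu R) + 9 / 100 * A.tu R := by ring
      rw [e6]
      linarith
    have e4 : R ^ (54 / 100 : ℝ) * R ^ (-(1 / 2) : ℝ) ≥ 1 := by
      rw [← Real.rpow_add hRp]
      exact Real.one_le_rpow hR1 (by norm_num)
    have e5 : R ^ (54 / 100 : ℝ) * R ^ (-(1 / 2) : ℝ) ≤
        (Real.exp (9 / 10 * ((b - 1) * A.tu R)) * Real.exp (99 / 100 * A.tu R)) * r :=
      mul_le_mul e3 hrlow (by positivity) (by positivity)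
    have e7 : Real.exp (9 / 10 * ((b - 1) * A.tu R)) *
        (99 / 100 * (Real.exp (99 / 100 * A.tu R) * (2 * r))) = 99 / 50 *
        ((Real.exp (9 / 10 * ((b - 1) * A.tu R)) * Real.exp (99 / 100 * A.tu R)) * r) := by ring
    rw [e7]
    linarith
  have hcurve : ∀ (g x s ε : ℝ) (k : SL(2, ℝ)), |x| ≤ r → |s| ≤ r → |ε| ≤ r →
      ∫⁻ u in Icc (-r) r, (PV D A R)^[b - 1] V
        (k * (D.fl p.2 (A.tu R) (p.1 * lM u) * nM x * aM s), p.2 + ε) ≤
      ENNReal.ofReal ((32 * r ^ 4) ^ (b - 1) * R ^ (-(2 * th)) * (2 * r)) := by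
    intro _ x s ε k hx hs hε
    obtain ⟨x', b', c', ℓ', q1, q2⟩ := J1 (1 / 2) _ _ _ _ _ (nM x * aM s) (Or.inl rfl) hRG
      (RI7_nm x s r hr4 hx hs)
    have q3 := J2 _ _ _ _ _ _ k q1
    rw [show (2 : ℝ) * (1 / 2) = 1 by norm_num] at q3
    have q4 := (q2 (-r) r (by linarith)).1
    have q5 := hiter (p.2 + ε) _ _ _ _ _ (-r) r (by
      have e1 : ((b - 1 : ℕ) : ℝ) = b - 1 := by rw [Nat.cast_sub hb0]; simp
      rw [e1]
      have e3 : |p.2 + ε| ≤ |p.2| + |ε| := abs_add_le _ _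
      have e4 : (b - 1 : ℝ) * r2 A R = b * r - r := by rw [hr]; ring
      rw [e4]
      linarith) q3 (by linarith) (by
      refine hlen2.trans ?_
      refine mul_le_mul_of_nonneg_left ?_ (Real.exp_pos _).le
      exact (mul_le_mul_of_nonneg_left hlen (by norm_num)).trans q4)
    have e1 : r - -r = 2 * r := by ring
    rw [e1] at q5
    have e2 : ∀ u : ℝ, k * (D.fl p.2 (A.tu R) (p.1 * lM u) * nM x * aM s) =
        k * (D.fl p.2 (A.tu R) (p.1 * lM u) * (nM x * aM s)) := fun u => by rw [mul_assoc (D.fl _ _ _)]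
    simp only [e2]
    exact q5
  -- the average over the box
  have hit : (PV D A R)^[b] V p = PV D A R ((PV D A R)^[b - 1] V) p := by
    rw [← Function.iterate_succ_apply' (PV D A R) (b - 1) V, Nat.succ_eq_add_one,
      Nat.sub_add_cancel hb0]
  have hWm : Measurable ((PV D A R)^[b - 1] V) := RI7_meas (fun V hV => m2 A R V hV) _ V hVm
  have hPV : (PV D A R)^[b] V p ≤
      ENNReal.ofReal ((32 * r ^ 4) ^ b * R ^ (-(2 * th))) := by
    rw [hit, PV]
    have hng := RI7_ng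
    have hPh : Measurable (fun o : ℝ × ℝ × ℝ × ℝ => Phi D (A.tu R) p o) := by
      have q := (m1 (A.tu R)).comp (measurable_prodMk_left (x := p))
      exact q
    have hfm : Measurable (fun o : ℝ × ℝ × ℝ × ℝ => (PV D A R)^[b - 1] V (Phi D (A.tu R) p o) +
        (PV D A R)^[b - 1] V (ngM * (Phi D (A.tu R) p o).1, (Phi D (A.tu R) p o).2)) :=
      (hWm.comp hPh).add (hWm.comp (hng.comp hPh))
    refine (RI7_box r hrp.le _ hfm (2 * ENNReal.ofReal ((32 * r ^ 4) ^ (b - 1) *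
      R ^ (-(2 * th)) * (2 * r))) ?_).trans ?_
    · intro x s ε hx hs hε
      have c1 := hcurve 0 x s ε 1 hx hs hε
      have c2 := hcurve 0 x s ε ngM hx hs hε
      simp only [one_mul] at c1
      rw [lintegral_add_left]
      · rw [two_mul]
        exact add_le_add c1 c2
      · exact (hWm.comp hPh).comp (measurable_id.prodMk measurable_const)
    · rw [show (2 : ENNReal) = ENNReal.ofReal 2 by simp, ← ENNReal.ofReal_mul (by norm_num),
        ← ENNReal.ofReal_mul (by positivity)]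
      apply ENNReal.ofReal_le_ofReal
      apply le_of_eq
      obtain ⟨n, rfl⟩ : ∃ n, b = n + 1 := ⟨b - 1, by omega⟩
      rw [Nat.add_sub_cancel, pow_succ]
      ring
  refine (mul_le_mul_right hPV _).trans ?_
  rw [← ENNReal.ofReal_pow (Real.rpow_nonneg hRp.le _), ← ENNReal.ofReal_mul (by positivity)]
  apply ENNReal.ofReal_le_ofReal
  have hCC : CA ≤ max 10 CA := le_max_right _ _
  exact RI7_num R CA A.z2 th e2 b hR1 (by linarith) he2 hth hz0 hAz hbe L5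

end Pool.Agent.VQ
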